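import Pool.Agent.AFL.Stmts

/-!
# Squad AFL, row KUP (helper82): the bound of `K` on the running sites of the box
-/

set_option autoImplicit false

open scoped BigOperators Matrix

noncomputable section

namespace Pool.Agent.AFL.H82

open Pool.Agent.LE.QF Pool.Agent.AFJ Pool.Agent.ABY Pool.Agent.AFL

theorem kup : KupStmt := by
  intro eub pta X _ _ F c₀ C₀ q hO hP hN hN0 u hu
  obtain ⟨hκv, hκv1, hr1, hc0, hc1, hC1, hNn, hδ, hL, hω, hω1, hε, hε1, hs1, hs2, hε₁, hε₁1, hδY,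
    hn, hnL⟩ := hO.num
  obtain ⟨p1, p2, p3, p4, p5, p6, p7, p8, p9, p10, p11, p12, p13⟩ := pta eub X F c₀ C₀ q hO hP hN hN0
  obtain ⟨hbQ1, hQ1Q, hQA⟩ := hO.hQ
  have hRQ : F.R ⊆ F.Q := Finset.inter_subset_right
  have hRRg : F.R ⊆ F.Rg := Finset.inter_subset_left
  have hRA : F.R ⊆ F.A := hRQ.trans hQA
  have hκ : ∀ x, 0 < F.k q.1 x := hN.hκ
  have hκR : ∀ x ∈ F.R, F.κv ≤ F.k q.1 x := fun x hx => p1 x (hRRg hx)
  have hgR : ∀ x ∈ F.R, 0 < F.g x ∧ F.g x ≤ C₀ := fun x hx =>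
    ⟨lt_of_lt_of_le hc0 (hO.hg x (hRA hx)).1, (hO.hg x (hRA hx)).2⟩
  have hKn : ∀ (G : Matrix X X ℂ) (x y : X), 0 ≤ KK G x y := by
    intro G x y
    unfold KK
    positivity
  set f : X → ℝ := fun x => u x / F.k q.1 x with hf
  set φ : X → ℝ := fun x => if x ∈ F.R then F.g x * u x else 0 with hφ
  have hfR : ∀ x, x ∉ F.R → f x = 0 := fun x hx => by
    simp only [hf, hu x hx, zero_div]
  have hfQ : ∀ x, x ∉ F.Q → f x = 0 := fun x hx => hfR x fun h => hx (hRQ h)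
  have hfA : ∀ x, x ∉ F.A → f x = 0 := fun x hx => hfR x fun h => hx (hRA h)
  have hφR : ∀ x, x ∉ F.R → φ x = 0 := fun x hx => by simp only [hφ, if_neg hx]
  have hκf : (fun x => F.k q.1 x * f x) = u := by
    funext x
    simp only [hf]
    rw [mul_div_cancel₀ _ (hκ x).ne']
  -- sums over `A` are sums over `R`
  have hsub : ∀ h : X → ℝ, (∀ x, x ∉ F.R → h x = 0) → ∑ x ∈ F.A, h x = ∑ x ∈ F.R, h x :=
    fun h hh => (Finset.sum_subset hRA fun x _ hx => hh x hx).symm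
  have hsub' : ∀ h : X → ℝ, (∀ x, x ∉ F.R → h x = 0) → ∑ x, h x = ∑ x ∈ F.R, h x :=
    fun h hh => (Finset.sum_subset (Finset.subset_univ _) fun x _ hx => hh x hx).symm
  -- the identity for `K`
  have e1 := (eub X (F.Gt q) (F.k q.1) F.A ∅ f hN (Finset.empty_subset _)).2.2.2.2.1 hfA
  rw [hκf, hsub _ fun x hx => by rw [hfR x hx]; ring] at e1
  have hEt : F.Et q = EE (F.Gt q) (F.k q.1) F.A := rfl
  have hE0 : F.E0 = EE F.G0 (F.k 0) F.A := rfl
  -- the form at the start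
  have e2 := (eub X F.G0 (F.k 0) F.A ∅ f hN0 (Finset.empty_subset _)).2.2.1
  rw [hsub _ fun x hx => by rw [hfR x hx]; ring] at e2
  have e3 : ∑ x ∈ F.R, F.k 0 x * rho F.G0 (F.k 0) F.A x * f x ^ 2 ≤
      2 * F.r * ∑ x ∈ F.R, F.k q.1 x * f x ^ 2 := by
    rw [Finset.mul_sum]
    refine Finset.sum_le_sum fun x hx => ?_
    have a1 := (p13 x (hRQ hx)).2
    have a2 := p3 x (hRA hx)
    have a3 := hN0.hκ x
    have a4 : F.k 0 x * rho F.G0 (F.k 0) F.A x ≤ 2 * F.k q.1 x * F.r := by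
      refine (mul_le_mul_of_nonneg_left a1 a3.le).trans ?_
      exact mul_le_mul_of_nonneg_right a2 (by linarith)
    have a5 := mul_le_mul_of_nonneg_right a4 (sq_nonneg (f x))
    linarith
  have e4 : qf F.E0 f ≤ 4 * F.r * ∑ x ∈ F.R, F.k q.1 x * f x ^ 2 := by
    rw [hE0]
    linarith
  -- the lower bound of the form
  have e5 := hP.frl f φ hfQ hφR
  have e6 : ∑ x, f x * φ x = ∑ x ∈ F.R, F.k q.1 x * F.g x * f x ^ 2 := by
    rw [hsub' _ fun x hx => by rw [hfR x hx, zero_mul]]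
    refine Finset.sum_congr rfl fun x hx => ?_
    simp only [hφ, if_pos hx, hf]
    have := (hκ x).ne'
    field_simp
  have e7 : ∑ x ∈ F.R, φ x ^ 2 / (F.k q.1 x * F.g x) =
      ∑ x ∈ F.R, F.k q.1 x * F.g x * f x ^ 2 := by
    refine Finset.sum_congr rfl fun x hx => ?_
    simp only [hφ, if_pos hx, hf]
    have h1 := (hκ x).ne'
    have h2 := (hgR x hx).1.ne'
    field_simp
  have e8 : (∑ x, |φ x|) ^ 2 ≤ C₀ ^ 2 * (∑ y, |u y|) ^ 2 := by
    rw [← mul_pow]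
    refine pow_le_pow_left₀ (Finset.sum_nonneg fun x _ => abs_nonneg _) ?_ 2
    rw [Finset.mul_sum]
    refine Finset.sum_le_sum fun x _ => ?_
    by_cases hx : x ∈ F.R
    · simp only [hφ, if_pos hx]
      rw [abs_mul, abs_of_pos (hgR x hx).1]
      exact mul_le_mul_of_nonneg_right (hgR x hx).2 (abs_nonneg _)
    · simp only [hφ, if_neg hx, abs_zero]
      exact mul_nonneg (by linarith) (abs_nonneg _)
  rw [e6, e7, hEt] at e5
  -- the difference on the running sites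
  have e9 : ∑ x ∈ F.R, F.k q.1 x * rho (F.Gt q) (F.k q.1) F.A x * f x ^ 2 ≤
      (1 - F.ε) * ∑ x ∈ F.R, F.k q.1 x * F.g x * f x ^ 2 +
        (F.μs + F.ε * C₀) * ∑ x ∈ F.R, F.k q.1 x * f x ^ 2 := by
    rw [Finset.mul_sum, Finset.mul_sum, ← Finset.sum_add_distrib]
    refine Finset.sum_le_sum fun x hx => ?_
    have a1 := (eub X (F.Gt q) (F.k q.1) F.A ∅ f hN (Finset.empty_subset _)).2.2.2.2.2 x
    have a2 : 0 ≤ ∑ y ∈ F.Aᶜ, F.k q.1 y * KK (F.Gt q) x y :=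
      Finset.sum_nonneg fun y _ => mul_nonneg (hκ y).le (hKn _ _ _)
    have a3 := (p9 x (hRRg hx)).1
    have a4 : rho (F.Gt q) (F.k q.1) F.A x ≤ (1 - F.ε) * F.g x + (F.μs + F.ε * C₀) := by
      have a5 := mul_le_mul_of_nonneg_left (hgR x hx).2 hε
      linarith
    have a6 := mul_le_mul_of_nonneg_left a4 (mul_nonneg (hκ x).le (sq_nonneg (f x)))
    linarith
  -- `∑ κ f² ≤ ∑ u² / κv`
  have e10 : ∑ x ∈ F.R, F.k q.1 x * f x ^ 2 ≤ (∑ y, u y ^ 2) / F.κv := by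
    rw [hsub' (fun y => u y ^ 2) fun x hx => by rw [hu x hx]; ring, Finset.sum_div]
    refine Finset.sum_le_sum fun x hx => ?_
    have h1 : F.k q.1 x * f x ^ 2 = u x ^ 2 / F.k q.1 x := by
      simp only [hf]
      have := (hκ x).ne'
      field_simp
    rw [h1]
    exact div_le_div_of_nonneg_left (sq_nonneg _) hκv (hκR x hx)
  have hμs0 : 0 ≤ F.μs := by
    unfold Fl.μs
    positivity
  have hcoef : 0 ≤ F.μs + F.ε * C₀ + 4 * F.ε₁ * F.r := by positivity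
  have e11 := mul_le_mul_of_nonneg_left e10 hcoef
  have e12 : F.aK C₀ * ∑ y, u y ^ 2 =
      (F.μs + F.ε * C₀ + 4 * F.ε₁ * F.r) * ((∑ y, u y ^ 2) / F.κv) := by
    unfold Fl.aK Fl.μs
    ring
  have e13 := mul_le_mul_of_nonneg_left e4 hε₁.le
  have e14 := mul_le_mul_of_nonneg_left e8 hs2
  rw [e12]
  have e15 : F.ε₁ * (4 * F.r * ∑ x ∈ F.R, F.k q.1 x * f x ^ 2) =
      4 * F.ε₁ * F.r * ∑ x ∈ F.R, F.k q.1 x * f x ^ 2 := by ring
  rw [e15] at e13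
  have e16 : (F.μs + F.ε * C₀ + 4 * F.ε₁ * F.r) * ∑ x ∈ F.R, F.k q.1 x * f x ^ 2 =
      (F.μs + F.ε * C₀) * ∑ x ∈ F.R, F.k q.1 x * f x ^ 2 +
      4 * F.ε₁ * F.r * ∑ x ∈ F.R, F.k q.1 x * f x ^ 2 := by ring
  rw [e16] at e11
  have e17 : C₀ ^ 2 * F.s2 * (∑ y, |u y|) ^ 2 = F.s2 * (C₀ ^ 2 * (∑ y, |u y|) ^ 2) := by ring
  rw [e17]
  linarith

end Pool.Agent.AFL.H82
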